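import Pool.Agent.H17.U2b

set_option autoImplicit false

namespace Pool.Agent.Results.MP_918176_nt.Both

/-- `c m n`: the coefficient of `x ^ n` in `(1 - x) ^ (-m) ∏ (1 - x ^ (2 ^ i)) ^ (-m)`.
The factor `1 / (1 - x ^ (2 ^ i))` is the series with coefficient `1` at the multiples of `2 ^ i`;
the factors with `i > n` do not affect the coefficient. -/
noncomputable def c (m n : ℕ) : ℤ :=
  PowerSeries.coeff n ((PowerSeries.mk (fun _ : ℕ => (1 : ℤ))) ^ m * (∏ i ∈ Finset.range (n + 1),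
    PowerSeries.mk (fun j : ℕ => if 2 ^ i ∣ j then (1 : ℤ) else 0)) ^ m)

/-- the 2-adic valuation with value `⊤` at zero -/
noncomputable def nu (a : ℤ) : ℕ∞ := emultiplicity (2 : ℤ) a

theorem result :
    (∀ k n : ℕ, 1 ≤ k → 1 ≤ n →
      nu (c (2 * k) (4 * n) - c (2 * k) n) = nu n + 2 * nu k + 3) ∧
    (∀ n : ℕ, 1 ≤ n → nu n + 7 ≤ nu (c 15 (4 * n) - c 15 n)) ∧
    ¬ (∀ k : ℕ, {n : ℕ | 1 ≤ n ∧
        nu (c (4 * k + 3) (4 * n) - c (4 * k + 3) n) = nu n + 6}.Infinite) := by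
  have hv : ∀ {z : ℤ} {a : ℕ}, Pool.Agent.H17.S4.Val z a → nu z = a := by
    intro z a h
    exact emultiplicity_eq_coe.2 ⟨(h.dvd_iff a).2 le_rfl, fun h' => by
      have := (h.dvd_iff (a + 1)).1 h'; omega⟩
  have hn : ∀ n : ℕ, 1 ≤ n → nu n = Pool.Agent.H17.S4.v n := by
    intro n h
    obtain ⟨u, hu, e⟩ := Pool.Agent.H17.S4.decomp (m := n) (by omega)
    refine hv ⟨(u / 2 : ℕ), ?_⟩
    have e2 : u = 2 * (u / 2) + 1 := by omega
    rw [e2] at e
    exact_mod_cast e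
  have h2 : ∀ n : ℕ, 1 ≤ n → nu n + 7 ≤ nu (c 15 (4 * n) - c 15 n) := by
    intro n h
    rw [hn n h]
    have := le_emultiplicity_of_pow_dvd (Pool.Agent.H17.U2.q2 n (by omega))
    exact_mod_cast this
  refine ⟨fun k n hk h => ?_, h2, fun H => ?_⟩
  · rw [hn n h, hn k hk]
    have := hv (Pool.Agent.H17.U2.q1 k n (by omega) (by omega))
    exact_mod_cast this
  · obtain ⟨n, h, e⟩ := (H 3).nonempty
    have := h2 n h
    rw [show 4 * 3 + 3 = 15 by norm_num] at e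
    rw [e, hn n h] at this
    have h3 : Pool.Agent.H17.S4.v n + 7 ≤ Pool.Agent.H17.S4.v n + 6 := by exact_mod_cast this
    omega

end Pool.Agent.Results.MP_918176_nt.Both
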